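import Mathlib
import Pool.Agent.Q147.SigmaProd

/-!
# MP_f1805c_gt : a countably compact abelian `g`-reversible group that is not minimal
-/

namespace Pool.Agent.Results.MP_f1805c_gt.GReversibleNotMinimal

open Set Topology Pool.Agent.Q147.SigmaProd

/-- A topological group is `g`-reversible if every continuous automorphism is open. -/
def GReversible (G : Type) [AddGroup G] [TopologicalSpace G] : Prop :=
  ∀ f : G ≃+ G, Continuous f → IsOpenMap f

/-- A (Hausdorff) topological group is minimal if there is no strictly coarser Hausdorff group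
topology on it.  In Mathlib `t ≤ t'` says that `t'` is coarser than `t`. -/
def MinimalGroup (G : Type) [AddGroup G] [t : TopologicalSpace G] : Prop :=
  ¬ ∃ t' : TopologicalSpace G, t ≤ t' ∧ t ≠ t' ∧
    @IsTopologicalAddGroup G t' _ ∧ @T2Space G t'

/-- Every countable open cover has a finite subcover. -/
def CountablyCompact (G : Type) [TopologicalSpace G] : Prop :=
  ∀ U : ℕ → Set G, (∀ n, IsOpen (U n)) → ⋃ n, U n = univ → ∃ N : ℕ, ⋃ n ≤ N, U n = univ

/-- Every continuous real-valued function is bounded. -/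
def Pseudocompact (G : Type) [TopologicalSpace G] : Prop :=
  ∀ f : G → ℝ, Continuous f → ∃ C : ℝ, ∀ x, |f x| ≤ C

theorem countablyCompact_Sg (ι : Type) : CountablyCompact (Sg ι) := by
  intro U hU hcov
  by_contra hcon
  push Not at hcon
  have h : ∀ N : ℕ, ∃ x : Sg ι, ∀ n ≤ N, x ∉ U n := by
    intro N
    obtain ⟨x, hx⟩ := (Set.ne_univ_iff_exists_notMem _).1 (hcon N)
    refine ⟨x, fun n hn hxn => hx ?_⟩
    exact Set.mem_biUnion (show n ∈ {n | n ≤ N} from hn) hxn
  choose x hx using h
  obtain ⟨K, hK, hxK⟩ := exists_compact (Set.countable_range x)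
  obtain ⟨t, ht⟩ := hK.elim_finite_subcover U hU (by rw [hcov]; exact Set.subset_univ _)
  have h1 : x (t.sup id) ∈ ⋃ i ∈ t, U i := ht (hxK ⟨_, rfl⟩)
  obtain ⟨n, hn, hxn⟩ := Set.mem_iUnion₂.1 h1
  exact hx _ n (Finset.le_sup (f := id) hn) hxn

theorem pseudocompact_Sg (ι : Type) : Pseudocompact (Sg ι) := by
  intro f hf
  by_contra hcon
  push Not at hcon
  have h : ∀ n : ℕ, ∃ x : Sg ι, (n : ℝ) < |f x| := fun n => hcon n
  choose x hx using h
  obtain ⟨K, hK, hxK⟩ := exists_compact (Set.countable_range x)
  obtain ⟨C, hC⟩ := (hK.image (hf.abs)).bddAbove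
  obtain ⟨n, hn⟩ := exists_nat_gt C
  have h1 := hC ⟨x n, hxK ⟨_, rfl⟩, rfl⟩
  exact absurd (h1.trans_lt hn) (not_lt.2 (hx n).le)

/-- A continuous map of the Sigma-product to itself is closed. -/
theorem isClosedMap_of_continuous {ι : Type} {f : Sg ι → Sg ι} (hf : Continuous f) :
    IsClosedMap f := by
  intro F hF
  rw [← closure_subset_iff_isClosed]
  intro y hy
  obtain ⟨D, hDF, hD, hyD⟩ := tight hy
  -- lift `D` to a countable subset of `F`
  obtain ⟨E, hEF, rfl⟩ := Set.subset_image_iff.1 hDF
  obtain ⟨E', hE'E, hE', hEE'⟩ : ∃ E' ⊆ E, E'.Countable ∧ f '' E ⊆ f '' E' := by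
    have hg : ∀ z : f '' E, ∃ x ∈ E, f x = z := fun z => z.2
    choose g hg hg' using hg
    have : Countable (f '' E) := hD
    refine ⟨Set.range g, ?_, Set.countable_range g, ?_⟩
    · rintro _ ⟨z, rfl⟩; exact hg z
    · intro z hz
      exact ⟨g ⟨z, hz⟩, ⟨_, rfl⟩, hg' ⟨z, hz⟩⟩
  obtain ⟨K, hK, hE'K⟩ := exists_compact hE'
  have hcl : IsClosed (f '' (K ∩ F)) := ((hK.inter_right hF).image hf).isClosed
  have h1 : f '' E ⊆ f '' (K ∩ F) :=
    hEE'.trans (Set.image_mono (Set.subset_inter hE'K (hE'E.trans hEF)))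
  have h2 : y ∈ f '' (K ∩ F) := (closure_minimal h1 hcl) hyD
  exact Set.image_mono Set.inter_subset_right h2

theorem gReversible_Sg (ι : Type) : GReversible (Sg ι) := by
  intro f hf
  have h : IsHomeomorph f :=
    isHomeomorph_iff_continuous_isClosedMap_bijective.2
      ⟨hf, isClosedMap_of_continuous hf, f.bijective⟩
  exact h.isOpenMap

/-- The homomorphism `x ↦ (x i - x j)_{i,j}`. -/
def diffHom (ι : Type) : Sg ι →+ (ι × ι → ZMod 2) where
  toFun x := fun p => x.1 p.1 - x.1 p.2
  map_zero' := by ext p; simp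
  map_add' := by
    intro x y
    ext p
    simp only [AddSubgroup.coe_add, Pi.add_apply]
    ring

theorem diffHom_injective (ι : Type) [Uncountable ι] : Function.Injective (diffHom ι) := by
  rw [injective_iff_map_eq_zero]
  intro x hx
  have h1 : ∀ i j, x.1 i = x.1 j := by
    intro i j
    have := congrFun hx (i, j)
    simpa [diffHom, sub_eq_zero] using this
  ext i
  by_contra hne
  have h2 : Function.support x.1 = univ := by
    rw [Set.eq_univ_iff_forall]
    intro j
    have : x.1 j = x.1 i := h1 j i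
    rw [Function.mem_support, this]
    simpa using hne
  have h3 := x.2
  rw [mem_Sg, h2] at h3
  exact Set.not_countable_univ h3

theorem not_minimal_Sg (ι : Type) [Uncountable ι] : ¬ MinimalGroup (Sg ι) := by
  classical
  rw [MinimalGroup, not_not]
  have hcont : Continuous (diffHom ι) := by
    refine continuous_pi fun p => ?_
    have hc : ∀ i : ι, Continuous fun x : Sg ι => x.1 i :=
      fun i => (continuous_apply i).comp continuous_subtype_val
    have hs : Continuous (fun q : ZMod 2 × ZMod 2 => q.1 - q.2) := continuous_of_discreteTopology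
    exact hs.comp ((hc p.1).prodMk (hc p.2))
  refine ⟨TopologicalSpace.induced (diffHom ι) inferInstance, ?_, ?_, ?_, ?_⟩
  · exact continuous_iff_le_induced.1 hcont
  · intro heq
    obtain ⟨i₀⟩ : Nonempty ι := inferInstance
    have hopen : IsOpen {x : Sg ι | x.1 i₀ = 0} := by
      have hc : Continuous fun x : Sg ι => x.1 i₀ :=
        (continuous_apply i₀).comp continuous_subtype_val
      exact (isOpen_discrete {(0 : ZMod 2)}).preimage hc
    rw [heq] at hopen
    obtain ⟨V, hV, hVe⟩ := isOpen_induced_iff.1 hopen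
    have h0 : (diffHom ι) 0 ∈ V := by
      have : (0 : Sg ι) ∈ (diffHom ι) ⁻¹' V := by rw [hVe]; rfl
      exact this
    obtain ⟨F, u, hu, hsub⟩ := isOpen_pi_iff.1 hV _ h0
    -- the indicator of a finite set
    let T : Finset ι := insert i₀ (F.image Prod.fst ∪ F.image Prod.snd)
    let x : Sg ι := ⟨fun i => if i ∈ T then 1 else 0, by
      rw [mem_Sg]
      refine (T.finite_toSet).countable.mono ?_
      intro i hi
      by_contra hiT
      exact hi (if_neg hiT)⟩
    have hx : x ∈ (diffHom ι) ⁻¹' V := by
      apply hsub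
      intro p hp
      have h1 : p.1 ∈ T := by
        simp only [T, Finset.mem_insert, Finset.mem_union, Finset.mem_image]
        exact Or.inr (Or.inl ⟨p, hp, rfl⟩)
      have h2 : p.2 ∈ T := by
        simp only [T, Finset.mem_insert, Finset.mem_union, Finset.mem_image]
        exact Or.inr (Or.inr ⟨p, hp, rfl⟩)
      have h3 : (diffHom ι) x p = (diffHom ι) 0 p := by
        simp [diffHom, x, h1, h2]
      rw [h3]
      exact (hu p hp).2
    rw [hVe] at hx
    have h4 : x.1 i₀ = 1 := by
      simp [x, T]
    have h5 : x.1 i₀ = 0 := hx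
    rw [h4] at h5
    exact one_ne_zero h5
  · exact topologicalAddGroup_induced (diffHom ι)
  · exact @T2Space.of_injective_continuous _ _ (TopologicalSpace.induced (diffHom ι) inferInstance)
      _ _ _ (diffHom_injective ι) continuous_induced_dom

/-- There is a Hausdorff abelian topological group that is countably compact, pseudocompact and
`g`-reversible, but not minimal. -/
theorem result : ∃ (G : Type) (_ : AddCommGroup G) (_ : TopologicalSpace G),
    IsTopologicalAddGroup G ∧ T2Space G ∧ CountablyCompact G ∧ Pseudocompact G ∧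
    GReversible G ∧ ¬ MinimalGroup G :=
  ⟨Sg ℝ, inferInstance, inferInstance, inferInstance, inferInstance, countablyCompact_Sg ℝ,
    pseudocompact_Sg ℝ, gReversible_Sg ℝ, not_minimal_Sg ℝ⟩

end Pool.Agent.Results.MP_f1805c_gt.GReversibleNotMinimal
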